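import Pool.Agent.K1H52.ON.Flp

set_option autoImplicit false

/-! Piece CF. -/

open Finset Pool.Agent.K1H73.ON

namespace Pool.Agent.K1H52.ON

lemma side_nbr {c : V} (hc : Even (c.1 + c.2)) {j : ℕ} (hj : j < 6) :
    Nbr (cor c j) (cor c (j + 1)) := by
  unfold Nbr
  have h2 : Even (c.1 + 2 + c.2) := by
    have : c.1 + 2 + c.2 = c.1 + c.2 + 2 := by ring
    rw [this]
    exact hc.add even_two
  interval_cases j <;> simp [cor, Prod.ext_iff, hc, h2]

/-- the three edges at `v` -/
def N3 (v : V) : Finset (Sym2 V) := by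
  classical exact {s(v, (v.1 + 1, v.2)), s(v, (v.1 - 1, v.2)),
    s(v, (v.1, if Even (v.1 + v.2) then v.2 + 1 else v.2 - 1))}

lemma N3_card (v : V) : (N3 v).card ≤ 3 := by
  classical
  unfold N3
  exact Finset.card_le_three

lemma mem_N3 {p q v : V} (h : Nbr p q) (hv : v ∈ s(p, q)) : s(p, q) ∈ N3 v := by
  classical
  obtain ⟨p1, p2⟩ := p
  obtain ⟨q1, q2⟩ := q
  unfold N3
  simp only [mem_insert, mem_singleton]
  unfold Nbr at h
  simp only [Prod.mk_sub_mk, Prod.mk.injEq] at h
  rcases Sym2.mem_iff.1 hv with rfl | rfl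
  · rcases h with ⟨h1, h2⟩ | ⟨h1, h2⟩ | ⟨⟨h1, h2⟩, h3⟩ | ⟨⟨h1, h2⟩, h3⟩
    · obtain rfl : q1 = p1 + 1 := by omega
      obtain rfl : q2 = p2 := by omega
      exact Or.inl rfl
    · obtain rfl : q1 = p1 - 1 := by omega
      obtain rfl : q2 = p2 := by omega
      exact Or.inr (Or.inl rfl)
    · obtain rfl : q1 = p1 := by omega
      obtain rfl : q2 = p2 + 1 := by omega
      right; right
      show s((q1, p2), (q1, p2 + 1)) = s((q1, p2), (q1, if Even (q1 + p2) then p2 + 1 else p2 - 1))
      rw [if_pos h3]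
    · obtain rfl : q1 = p1 := by omega
      obtain rfl : q2 = p2 - 1 := by omega
      have h4 : ¬ Even (q1 + p2) := by
        rintro ⟨r, hr⟩
        obtain ⟨t, ht⟩ := h3
        omega
      right; right
      show s((q1, p2), (q1, p2 - 1)) = s((q1, p2), (q1, if Even (q1 + p2) then p2 + 1 else p2 - 1))
      rw [if_neg h4]
  · rw [Sym2.eq_swap]
    rcases h with ⟨h1, h2⟩ | ⟨h1, h2⟩ | ⟨⟨h1, h2⟩, h3⟩ | ⟨⟨h1, h2⟩, h3⟩
    · obtain rfl : p1 = q1 - 1 := by omega
      obtain rfl : p2 = q2 := by omega
      exact Or.inr (Or.inl rfl)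
    · obtain rfl : p1 = q1 + 1 := by omega
      obtain rfl : p2 = q2 := by omega
      exact Or.inl rfl
    · obtain rfl : p1 = q1 := by omega
      obtain rfl : p2 = q2 - 1 := by omega
      have h4 : ¬ Even (p1 + q2) := by
        rintro ⟨r, hr⟩
        obtain ⟨t, ht⟩ := h3
        omega
      right; right
      show s((p1, q2), (p1, q2 - 1)) = s((p1, q2), (p1, if Even (p1 + q2) then q2 + 1 else q2 - 1))
      rw [if_neg h4]
    · obtain rfl : p1 = q1 := by omega
      obtain rfl : p2 = q2 + 1 := by omega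
      right; right
      show s((p1, q2), (p1, q2 + 1)) = s((p1, q2), (p1, if Even (p1 + q2) then q2 + 1 else q2 - 1))
      rw [if_pos h3]

lemma cor_mod (c : V) (m : ℕ) : cor c (m % 6) = cor c m := by
  unfold cor
  rw [Nat.mod_mod]

theorem t_CF : CF := by
  classical
  intro D a b ω c hcfg hev hcor
  obtain ⟨h1, h2, h3⟩ := hcfg
  have hcor' : ∀ j, cor c j ∈ D ∧ cor c j ≠ a ∧ cor c j ≠ b := by
    intro j
    have := hcor (j % 6) (Nat.mod_lt _ (by norm_num))
    rwa [cor_mod] at this
  have hhex : ∀ e ∈ hex c, ∃ j < 6, e = s(cor c j, cor c (j + 1)) := by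
    intro e he
    unfold hex at he
    obtain ⟨j, hj, rfl⟩ := mem_image.1 he
    exact ⟨j, mem_range.1 hj, rfl⟩
  have hfil : ∀ v, (symmDiff ω (hex c)).filter (fun e => v ∈ e) =
      symmDiff (ω.filter (fun e => v ∈ e)) ((hex c).filter (fun e => v ∈ e)) := by
    intro v
    ext e
    simp only [mem_filter, mem_symmDiff]
    tauto
  have hno : ∀ v, (∀ j, v ≠ cor c j) → deg (symmDiff ω (hex c)) v = deg ω v := by
    intro v hv
    unfold deg
    rw [hfil]
    have : (hex c).filter (fun e => v ∈ e) = ∅ := by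
      rw [Finset.filter_eq_empty_iff]
      intro e he hve
      obtain ⟨j, _, rfl⟩ := hhex e he
      rcases Sym2.mem_iff.1 hve with h | h
      · exact hv _ h
      · exact hv _ h
    rw [this]
    congr 1
    ext e
    simp [mem_symmDiff]
  refine ⟨?_, ⟨?_, ?_⟩, ?_⟩
  · intro e he
    rcases mem_symmDiff.1 he with ⟨he, -⟩ | ⟨he, -⟩
    · exact h1 e he
    · obtain ⟨j, hj, rfl⟩ := hhex e he
      exact ⟨_, _, rfl, side_nbr hev hj, (hcor' _).1, (hcor' _).1⟩
  · rw [hno a (fun j h => (hcor' j).2.1 h.symm)]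
    exact h2.1
  · rw [hno b (fun j h => (hcor' j).2.2 h.symm)]
    exact h2.2
  · intro v hva hvb
    by_cases hv : ∀ j, v ≠ cor c j
    · rw [hno v hv]
      exact h3 v hva hvb
    · push Not at hv
      obtain ⟨j0, hj0⟩ := hv
      obtain ⟨j, hj, rfl⟩ : ∃ j < 6, v = cor c j :=
        ⟨j0 % 6, Nat.mod_lt _ (by norm_num), by rw [cor_mod]; exact hj0⟩
      have hd := h3 _ hva hvb
      unfold deg at hd ⊢
      rw [hfil]
      set A := ω.filter (fun e => cor c j ∈ e) with hA
      set H := (hex c).filter (fun e => cor c j ∈ e) with hH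
      have hHc : H = {side c j, side c (j + 5)} := by
        rw [hH, hex_eq c j hj]
        ext e
        simp only [mem_filter, mem_union, mem_insert, mem_singleton]
        have m0 : cor c j ∈ side c j := Sym2.mem_mk_left _ _
        have m5 : cor c j ∈ side c (j + 5) := by
          have : cor c (j + 5 + 1) ∈ side c (j + 5) := Sym2.mem_mk_right _ _
          rwa [show j + 5 + 1 = j + 6 by ring, cor_add6] at this
        constructor
        · rintro ⟨(rfl | rfl) | (rfl | rfl | rfl | rfl), hm⟩
          · exact Or.inl rfl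
          · rcases Sym2.mem_iff.1 hm with h | h <;> exact absurd h (cor_ne c (by omega))
          · rcases Sym2.mem_iff.1 hm with h | h <;> exact absurd h (cor_ne c (by omega))
          · rcases Sym2.mem_iff.1 hm with h | h <;> exact absurd h (cor_ne c (by omega))
          · rcases Sym2.mem_iff.1 hm with h | h <;> exact absurd h (cor_ne c (by omega))
          · exact Or.inr rfl
        · rintro (rfl | rfl)
          · exact ⟨Or.inl (Or.inl rfl), m0⟩
          · exact ⟨Or.inr (Or.inr (Or.inr (Or.inr rfl))), m5⟩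
      have hH2 : H.card = 2 := by
        rw [hHc]
        exact Finset.card_pair (side_ne c (by omega))
      have hsub : symmDiff A H ⊆ N3 (cor c j) := by
        intro e he
        rcases mem_symmDiff.1 he with ⟨he, -⟩ | ⟨he, -⟩
        · obtain ⟨he1, he2⟩ := mem_filter.1 he
          obtain ⟨p, q, rfl, hn, -, -⟩ := h1 e he1
          exact mem_N3 hn he2
        · obtain ⟨he1, he2⟩ := mem_filter.1 he
          obtain ⟨k, hk, rfl⟩ := hhex e he1
          exact mem_N3 (side_nbr hev hk) he2
      have hle : (symmDiff A H).card ≤ 3 := (Finset.card_le_card hsub).trans (N3_card _)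
      have hsd : (symmDiff A H).card = (A \ H).card + (H \ A).card := by
        rw [symmDiff_def, Finset.sup_eq_union, Finset.card_union_of_disjoint]
        exact disjoint_sdiff_sdiff
      have e1 := Finset.card_sdiff_add_card_inter A H
      have e2 := Finset.card_sdiff_add_card_inter H A
      rw [Finset.inter_comm H A] at e2
      rcases hd with hd | hd
      · omega
      · omega

end Pool.Agent.K1H52.ON
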