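import Pool.Agent.K1H73.ON.Stm

set_option autoImplicit false

/-! Piece FLP. -/

open Finset Pool.Agent.K1H73.ON

namespace Pool.Agent.K1H52.ON

lemma cor_add6 (c : V) (j : ℕ) : cor c (j + 6) = cor c j := by
  unfold cor
  rw [Nat.add_mod_right]

lemma side_add6 (c : V) (j : ℕ) : side c (j + 6) = side c j := by
  unfold side
  rw [cor_add6, show j + 6 + 1 = j + 1 + 6 by ring, cor_add6]

lemma side_mod (c : V) (m : ℕ) : side c (m % 6) = side c m := by
  unfold side
  have h1 : cor c (m % 6) = cor c m := by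
    unfold cor
    rw [Nat.mod_mod]
  have h2 : cor c (m % 6 + 1) = cor c (m + 1) := by
    unfold cor
    rw [Nat.mod_add_mod]
  rw [h1, h2]

lemma cor_inj (c : V) {j k : ℕ} (h : cor c j = cor c k) : j % 6 = k % 6 := by
  have hj := Nat.mod_lt j (show 0 < 6 by norm_num)
  have hk := Nat.mod_lt k (show 0 < 6 by norm_num)
  unfold cor at h
  generalize j % 6 = a at *
  generalize k % 6 = b at *
  interval_cases a <;> interval_cases b <;> simp [Prod.ext_iff] at h ⊢

lemma cor_ne (c : V) {j k : ℕ} (h : j % 6 ≠ k % 6) : cor c j ≠ cor c k := fun e => h (cor_inj c e)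

lemma side_inj (c : V) {j k : ℕ} (h : side c j = side c k) : j % 6 = k % 6 := by
  unfold side at h
  rw [Sym2.eq_iff] at h
  rcases h with ⟨h, -⟩ | ⟨h1, h2⟩
  · exact cor_inj c h
  · have a := cor_inj c h1
    have b := cor_inj c h2
    omega

lemma side_ne (c : V) {j k : ℕ} (h : j % 6 ≠ k % 6) : side c j ≠ side c k :=
  fun e => h (side_inj c e)

lemma hex_eq (c : V) (i : ℕ) (hi : i < 6) : hex c = {side c i, side c (i + 1)} ∪
    {side c (i + 2), side c (i + 3), side c (i + 4), side c (i + 5)} := by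
  have h6 := side_add6 c 0
  have h7 := side_add6 c 1
  have h8 := side_add6 c 2
  have h9 := side_add6 c 3
  have h10 := side_add6 c 4
  norm_num at h6 h7 h8 h9 h10
  ext e
  unfold hex
  simp only [mem_image, mem_range, mem_insert, mem_singleton, mem_union]
  constructor
  · rintro ⟨j, hj, rfl⟩
    interval_cases i <;> interval_cases j <;> simp [h6, h7, h8, h9, h10]
  · intro h
    rcases h with (h | h) | (h | h | h | h) <;> subst h <;>
      exact ⟨_, Nat.mod_lt _ (by norm_num), side_mod c _⟩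

/-- equality of the numbers of values -/
lemma ncard_image_eq {α β γ : Type} (T : Set α) (f : α → β) (g : α → γ)
    (h : ∀ v ∈ T, ∀ w ∈ T, f v = f w ↔ g v = g w) : (f '' T).ncard = (g '' T).ncard := by
  classical
  have hc : ∀ C ∈ f '' T, ∃ v ∈ T, f v = C := fun C hC => hC
  choose r hr hrf using hc
  apply Set.ncard_congr (fun C hC => g (r C hC))
  · intro C hC
    exact ⟨_, hr C hC, rfl⟩
  · intro C D hC hD hCD
    have := (h _ (hr C hC) _ (hr D hD)).2 hCD
    rw [hrf, hrf] at this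
    exact this
  · rintro _ ⟨v, hv, rfl⟩
    refine ⟨f v, ⟨v, hv, rfl⟩, ?_⟩
    exact (h _ (hr _ _) _ hv).1 (hrf _ _)

theorem t_FLP (h : RCH) : FLP := by
  classical
  intro a ω c i hi hev hnbr hA ha1 ha3 ha4 ha5 hd1 hd3 hd4 hd5
  obtain ⟨r1, r2, r3, -, -, -, -, q3, q4, q5⟩ := h ω c i hi hev hnbr hA hd1 hd3 hd4 hd5
  set ω' := symmDiff ω (hex c) with hω'
  have hhex := hex_eq c i hi
  set S2 : Finset (Sym2 V) := {side c i, side c (i + 1)} with hS2
  set S4 : Finset (Sym2 V) := {side c (i + 2), side c (i + 3), side c (i + 4), side c (i + 5)}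
    with hS4
  have hinter : ω ∩ hex c = S2 := hA
  have hdisj : Disjoint S2 S4 := by
    rw [Finset.disjoint_left]
    intro e h2 h4
    simp only [hS2, hS4, mem_insert, mem_singleton] at h2 h4
    rcases h2 with rfl | rfl <;> rcases h4 with h4 | h4 | h4 | h4 <;>
      exact side_ne c (by omega) h4
  have c2 : S2.card = 2 := Finset.card_pair (side_ne c (by omega))
  have c4 : S4.card = 4 := by
    rw [hS4, Finset.card_insert_of_notMem, Finset.card_insert_of_notMem, Finset.card_pair]
    · exact side_ne c (by omega)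
    · simp only [mem_insert, mem_singleton, not_or]
      exact ⟨side_ne c (by omega), side_ne c (by omega)⟩
    · simp only [mem_insert, mem_singleton, not_or]
      exact ⟨side_ne c (by omega), side_ne c (by omega), side_ne c (by omega)⟩
  have hS2ω : ∀ e ∈ S2, e ∈ ω := fun e he => (Finset.mem_inter.1 (hinter ▸ he)).1
  have hS2h : ∀ e ∈ S2, e ∈ hex c := fun e he => (Finset.mem_inter.1 (hinter ▸ he)).2
  have hS4h : ∀ e ∈ S4, e ∈ hex c := fun e he => by rw [hhex]; exact mem_union_right _ he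
  have hS4ω : ∀ e ∈ S4, e ∉ ω := fun e he hω => by
    have : e ∈ S2 := by rw [← hinter]; exact mem_inter.2 ⟨hω, hS4h e he⟩
    exact Finset.disjoint_left.1 hdisj this he
  have hmem' : ∀ e, e ∈ ω' ↔ (e ∈ ω ∧ e ∉ hex c) ∨ e ∈ S4 := by
    intro e
    rw [hω', Finset.mem_symmDiff]
    constructor
    · rintro (h | ⟨h1, h2⟩)
      · exact Or.inl h
      · right
        rw [hhex] at h1
        rcases mem_union.1 h1 with h1 | h1
        · exact absurd (hS2ω e h1) h2
        · exact h1
    · rintro (h | h)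
      · exact Or.inl h
      · exact Or.inr ⟨hS4h e h, hS4ω e h⟩
  have hmem : ∀ e, e ∈ ω ↔ (e ∈ ω ∧ e ∉ hex c) ∨ e ∈ S2 := by
    intro e
    constructor
    · intro he
      by_cases hh : e ∈ hex c
      · right; rw [← hinter]; exact mem_inter.2 ⟨he, hh⟩
      · exact Or.inl ⟨he, hh⟩
    · rintro (h | h)
      · exact h.1
      · exact hS2ω e h
  set W := ω.filter (fun e => e ∉ hex c) with hW
  have hWmem : ∀ e, e ∈ W ↔ e ∈ ω ∧ e ∉ hex c := fun e => mem_filter
  have eω : ω = W ∪ S2 := by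
    ext e; rw [mem_union, hWmem]; exact hmem e
  have eω' : ω' = W ∪ S4 := by
    ext e; rw [mem_union, hWmem]; exact hmem' e
  have dW2 : Disjoint W S2 := Finset.disjoint_left.2 fun e h1 h2 => ((hWmem e).1 h1).2 (hS2h e h2)
  have dW4 : Disjoint W S4 := Finset.disjoint_left.2 fun e h1 h2 => ((hWmem e).1 h1).2 (hS4h e h2)
  -- degrees
  have hdeg0 : ∀ v, deg ω v = 0 → ∀ e ∈ ω, v ∉ e := by
    intro v hv e he hve
    unfold deg at hv
    rw [Finset.card_eq_zero] at hv
    have : e ∈ ω.filter (fun e => v ∈ e) := mem_filter.2 ⟨he, hve⟩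
    rw [hv] at this
    exact absurd this (Finset.notMem_empty _)
  have m1 : cor c (i + 1) ∈ side c i := Sym2.mem_mk_right _ _
  have m1' : cor c (i + 1) ∈ side c (i + 1) := Sym2.mem_mk_left _ _
  have hdeg1 : ∀ e ∈ W, cor c (i + 1) ∉ e := by
    intro e he hve
    have h2 : S2 ⊆ ω.filter (fun e => cor c (i + 1) ∈ e) := by
      intro e' he'
      refine mem_filter.2 ⟨hS2ω e' he', ?_⟩
      simp only [hS2, mem_insert, mem_singleton] at he'
      rcases he' with rfl | rfl
      · exact m1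
      · exact m1'
    have h3 : ω.filter (fun e => cor c (i + 1) ∈ e) = S2 := by
      symm
      apply Finset.eq_of_subset_of_card_le h2
      rw [c2]
      exact hd1.le
    have h4 : e ∈ S2 := by
      rw [← h3]
      exact mem_filter.2 ⟨((hWmem e).1 he).1, hve⟩
    exact Finset.disjoint_left.1 dW2 he h4
  have hWbad : ∀ e ∈ W, ∀ v ∈ e, v ≠ cor c (i + 1) ∧ v ≠ cor c (i + 3) ∧ v ≠ cor c (i + 4) ∧
      v ≠ cor c (i + 5) := by
    intro e he v hv
    refine ⟨?_, ?_, ?_, ?_⟩ <;> rintro rfl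
    · exact hdeg1 e he hv
    · exact hdeg0 _ hd3 e ((hWmem e).1 he).1 hv
    · exact hdeg0 _ hd4 e ((hWmem e).1 he).1 hv
    · exact hdeg0 _ hd5 e ((hWmem e).1 he).1 hv
  have hci : cor c i ≠ cor c (i + 1) ∧ cor c i ≠ cor c (i + 3) ∧ cor c i ≠ cor c (i + 4) ∧
      cor c i ≠ cor c (i + 5) :=
    ⟨cor_ne c (by omega), cor_ne c (by omega), cor_ne c (by omega), cor_ne c (by omega)⟩
  have hci2 : cor c (i + 2) ≠ cor c (i + 1) ∧ cor c (i + 2) ≠ cor c (i + 3) ∧
      cor c (i + 2) ≠ cor c (i + 4) ∧ cor c (i + 2) ≠ cor c (i + 5) :=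
    ⟨cor_ne c (by omega), cor_ne c (by omega), cor_ne c (by omega), cor_ne c (by omega)⟩
  have haa : a ≠ cor c (i + 1) ∧ a ≠ cor c (i + 3) ∧ a ≠ cor c (i + 4) ∧ a ≠ cor c (i + 5) :=
    ⟨ha1, ha3, ha4, ha5⟩
  have s0 : side c i ∈ S2 := by simp [hS2]
  have s1 : side c (i + 1) ∈ S2 := by simp [hS2]
  have s2 : side c (i + 2) ∈ S4 := by simp [hS4]
  have s5 : side c (i + 5) ∈ S4 := by simp [hS4]
  have m0 : cor c i ∈ side c i := Sym2.mem_mk_left _ _
  have m2 : cor c (i + 2) ∈ side c (i + 1) := Sym2.mem_mk_right _ _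
  have m2' : cor c (i + 2) ∈ side c (i + 2) := Sym2.mem_mk_left _ _
  have m0' : cor c i ∈ side c (i + 5) := by
    have : cor c (i + 5 + 1) ∈ side c (i + 5) := Sym2.mem_mk_right _ _
    rwa [show i + 5 + 1 = i + 6 by ring, cor_add6] at this
  -- vertices of the sides
  have v2 : ∀ e ∈ S2, ∀ v ∈ e, v = cor c i ∨ v = cor c (i + 1) ∨ v = cor c (i + 2) := by
    intro e he v hv
    simp only [hS2, mem_insert, mem_singleton] at he
    rcases he with rfl | rfl
    · rcases Sym2.mem_iff.1 hv with h | h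
      · exact Or.inl h
      · exact Or.inr (Or.inl h)
    · rcases Sym2.mem_iff.1 hv with h | h
      · exact Or.inr (Or.inl h)
      · exact Or.inr (Or.inr h)
  have v4 : ∀ e ∈ S4, ∀ v ∈ e, v = cor c (i + 2) ∨ v = cor c (i + 3) ∨ v = cor c (i + 4) ∨
      v = cor c (i + 5) ∨ v = cor c i := by
    intro e he v hv
    simp only [hS4, mem_insert, mem_singleton] at he
    rcases he with rfl | rfl | rfl | rfl <;> rcases Sym2.mem_iff.1 hv with h | h
    · exact Or.inl h
    · exact Or.inr (Or.inl h)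
    · exact Or.inr (Or.inl h)
    · exact Or.inr (Or.inr (Or.inl h))
    · exact Or.inr (Or.inr (Or.inl h))
    · exact Or.inr (Or.inr (Or.inr (Or.inl h)))
    · exact Or.inr (Or.inr (Or.inr (Or.inl h)))
    · rw [show i + 5 + 1 = i + 6 by ring, cor_add6] at h
      exact Or.inr (Or.inr (Or.inr (Or.inr h)))
  -- edges at good vertices
  have hedge : ∀ v, (v ≠ cor c (i + 1) ∧ v ≠ cor c (i + 3) ∧ v ≠ cor c (i + 4) ∧
      v ≠ cor c (i + 5)) → ((∃ e ∈ ω, v ∈ e) ↔ ∃ e ∈ ω', v ∈ e) := by
    intro v hv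
    constructor
    · rintro ⟨e, he, hve⟩
      rw [eω, mem_union] at he
      rcases he with he | he
      · exact ⟨e, by rw [eω']; exact mem_union_left _ he, hve⟩
      · rcases v2 e he v hve with rfl | rfl | rfl
        · exact ⟨_, by rw [eω']; exact mem_union_right _ s5, m0'⟩
        · exact absurd rfl hv.1
        · exact ⟨_, by rw [eω']; exact mem_union_right _ s2, m2'⟩
    · rintro ⟨e, he, hve⟩
      rw [eω', mem_union] at he
      rcases he with he | he
      · exact ⟨e, by rw [eω]; exact mem_union_left _ he, hve⟩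
      · rcases v4 e he v hve with rfl | rfl | rfl | rfl | rfl
        · exact ⟨_, hS2ω _ s1, m2⟩
        · exact absurd rfl hv.2.1
        · exact absurd rfl hv.2.2.1
        · exact absurd rfl hv.2.2.2
        · exact ⟨_, hS2ω _ s0, m0⟩
  let T : Set V := {v | (v ≠ cor c (i + 1) ∧ v ≠ cor c (i + 3) ∧ v ≠ cor c (i + 4) ∧
      v ≠ cor c (i + 5)) ∧ (∃ e ∈ ω, v ∈ e) ∧ ¬ Conn ω a v}
  have comp_eq : ∀ (η : Finset (Sym2 V)) (v w : V), ({u | Conn η v u} : Set V) = {u | Conn η w u} ↔
      Conn η v w := by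
    intro η v w
    constructor
    · intro h
      have : w ∈ ({u | Conn η w u} : Set V) := SimpleGraph.Reachable.refl _
      rw [← h] at this
      exact this
    · intro h
      ext u
      exact ⟨fun hu => h.symm.trans hu, fun hu => h.trans hu⟩
  have e1 : {C : Set V | ∃ v, (∃ e ∈ ω, v ∈ e) ∧ ¬ Conn ω a v ∧ C = {u | Conn ω v u}} =
      (fun v => {u | Conn ω v u}) '' T := by
    ext C
    constructor
    · rintro ⟨v, hv, hav, rfl⟩
      by_cases h1 : v = cor c (i + 1)
      · refine ⟨cor c i, ⟨hci, ⟨_, hS2ω _ s0, m0⟩, fun h => hav ?_⟩, ?_⟩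
        · rw [h1]; exact h.trans r2
        · show ({u | Conn ω (cor c i) u} : Set V) = _
          rw [comp_eq, h1]
          exact r2
      · obtain ⟨e, he, hve⟩ := hv
        refine ⟨v, ⟨⟨h1, ?_, ?_, ?_⟩, ⟨e, he, hve⟩, hav⟩, rfl⟩
        · rintro rfl; exact hdeg0 _ hd3 e he hve
        · rintro rfl; exact hdeg0 _ hd4 e he hve
        · rintro rfl; exact hdeg0 _ hd5 e he hve
    · rintro ⟨v, ⟨-, hv, hav⟩, rfl⟩
      exact ⟨v, hv, hav, rfl⟩
  have e2 : {C : Set V | ∃ v, (∃ e ∈ ω', v ∈ e) ∧ ¬ Conn ω' a v ∧ C = {u | Conn ω' v u}} =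
      (fun v => {u | Conn ω' v u}) '' T := by
    ext C
    constructor
    · rintro ⟨v, hv, hav, rfl⟩
      have key : ∀ w, Conn ω' (cor c i) w → ¬ Conn ω' a w →
          ({u | Conn ω' w u} : Set V) ∈ (fun v => {u | Conn ω' v u}) '' T := by
        intro w hw haw
        refine ⟨cor c i, ⟨hci, ⟨_, hS2ω _ s0, m0⟩, fun h => haw ?_⟩, ?_⟩
        · exact ((r1 a (cor c i) haa hci).1 h).trans hw
        · show ({u | Conn ω' (cor c i) u} : Set V) = _
          rw [comp_eq]
          exact hw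
      by_cases h3 : v = cor c (i + 3)
      · rw [h3] at hav ⊢; exact key _ q3 hav
      by_cases h4 : v = cor c (i + 4)
      · rw [h4] at hav ⊢; exact key _ q4 hav
      by_cases h5 : v = cor c (i + 5)
      · rw [h5] at hav ⊢; exact key _ q5 hav
      by_cases h1 : v = cor c (i + 1)
      · exfalso
        obtain ⟨e, he, hve⟩ := hv
        rw [eω', mem_union] at he
        rcases he with he | he
        · exact (hWbad e he v hve).1 h1
        · rcases v4 e he v hve with h | h | h | h | h <;> rw [h1] at h <;>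
            exact cor_ne c (by omega) h
      · have hg : v ≠ cor c (i + 1) ∧ v ≠ cor c (i + 3) ∧ v ≠ cor c (i + 4) ∧
          v ≠ cor c (i + 5) := ⟨h1, h3, h4, h5⟩
        exact ⟨v, ⟨hg, (hedge v hg).2 hv, fun h => hav ((r1 a v haa hg).1 h)⟩, rfl⟩
    · rintro ⟨v, ⟨hg, hv, hav⟩, rfl⟩
      exact ⟨v, (hedge v hg).1 hv, fun h => hav ((r1 a v haa hg).2 h), rfl⟩
  refine ⟨?_, ?_, ?_, ?_⟩
  · show ω' ∩ hex c = S4
    ext e
    rw [mem_inter, hmem']
    constructor
    · rintro ⟨h | h, h'⟩
      · exact absurd h' h.2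
      · exact h
    · intro h
      exact ⟨Or.inr h, hS4h e h⟩
  · rw [eω', Finset.card_union_of_disjoint dW4, c4]
    conv_rhs => rw [eω, Finset.card_union_of_disjoint dW2, c2]
  · unfold loops
    rw [e1, e2]
    symm
    apply ncard_image_eq
    intro v hv w hw
    show ({u | Conn ω v u} : Set V) = {u | Conn ω w u} ↔
      ({u | Conn ω' v u} : Set V) = {u | Conn ω' w u}
    rw [comp_eq, comp_eq]
    exact r1 v w hv.1 hw.1
  · intro hai
    have hai' : Conn ω' a (cor c i) := (r1 a (cor c i) haa hci).1 hai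
    refine ⟨?_, hai'⟩
    unfold len
    have f1 : ω.filter (fun e => ∃ v ∈ e, Conn ω a v) =
        W.filter (fun e => ∃ v ∈ e, Conn ω a v) ∪ S2 := by
      conv_lhs => rw [eω, Finset.filter_union]
      congr 1
      · rw [← eω]
      · rw [← eω]
        apply Finset.filter_true_of_mem
        intro e he
        simp only [hS2, mem_insert, mem_singleton] at he
        rcases he with rfl | rfl
        · exact ⟨_, m0, hai⟩
        · exact ⟨_, m2, hai.trans r3⟩
    have f2 : ω'.filter (fun e => ∃ v ∈ e, Conn ω' a v) =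
        W.filter (fun e => ∃ v ∈ e, Conn ω a v) ∪ S4 := by
      have g1 : ω'.filter (fun e => ∃ v ∈ e, Conn ω' a v) =
          W.filter (fun e => ∃ v ∈ e, Conn ω' a v) ∪ S4.filter (fun e => ∃ v ∈ e, Conn ω' a v) := by
        rw [← Finset.filter_union, ← eω']
      rw [g1]
      have g2 : W.filter (fun e => ∃ v ∈ e, Conn ω' a v) =
          W.filter (fun e => ∃ v ∈ e, Conn ω a v) := by
        apply Finset.filter_congr
        intro e he
        constructor
        · rintro ⟨v, hv, hav⟩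
          exact ⟨v, hv, (r1 a v haa (hWbad e he v hv)).2 hav⟩
        · rintro ⟨v, hv, hav⟩
          exact ⟨v, hv, (r1 a v haa (hWbad e he v hv)).1 hav⟩
      have g3 : S4.filter (fun e => ∃ v ∈ e, Conn ω' a v) = S4 := by
        apply Finset.filter_true_of_mem
        intro e he
        simp only [hS4, mem_insert, mem_singleton] at he
        rcases he with rfl | rfl | rfl | rfl
        · exact ⟨_, Sym2.mem_mk_right _ _, hai'.trans q3⟩
        · exact ⟨_, Sym2.mem_mk_left _ _, hai'.trans q3⟩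
        · exact ⟨_, Sym2.mem_mk_left _ _, hai'.trans q4⟩
        · exact ⟨_, Sym2.mem_mk_left _ _, hai'.trans q5⟩
      rw [g2, g3]
    rw [f1, f2, Finset.card_union_of_disjoint, Finset.card_union_of_disjoint, c2, c4]
    · exact Finset.disjoint_of_subset_left (Finset.filter_subset _ _) dW2
    · exact Finset.disjoint_of_subset_left (Finset.filter_subset _ _) dW4

end Pool.Agent.K1H52.ON
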