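import Pool.Agent.K1H73.ON.Stm

set_option autoImplicit false

/-! Pieces INV and CFG. -/

open Finset Pool.Agent.K1H73.ON

namespace Pool.Agent.K1H52.ON

lemma exit_of {a : V} {ω ω' : Finset (Sym2 V)} {k : ℤ}
    (h : ∀ e, (∃ v ∈ e, v ∈ R k) → (e ∈ ω ↔ e ∈ ω')) {p : V × V} (hp : Exit a ω k p) :
    Exit a ω' k p := by
  obtain ⟨h1, h2, h3, ω0, h4, h5, h6⟩ := hp
  refine ⟨h1, h2, (h _ ⟨p.1, Sym2.mem_mk_left _ _, h1⟩).1 h3, ω0, ?_, h5, h6⟩
  intro e he
  obtain ⟨v, hv⟩ : ∃ v, v ∈ e := by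
    induction e using Sym2.ind with
    | _ x y => exact ⟨x, Sym2.mem_mk_left _ _⟩
  exact (h e ⟨v, hv, h5 e he v hv⟩).1 (h4 he)

theorem t_INV : INV := by
  intro a ω ω' k _ h
  have e1 : Exit a ω k = Exit a ω' k := by
    funext p
    exact propext ⟨fun hp => exit_of h hp, fun hp => exit_of (fun e he => (h e he).symm) hp⟩
  have e2 : ex a ω k = ex a ω' k := by
    unfold ex
    rw [e1]
  refine ⟨e2, ?_⟩
  unfold hx
  rw [e2]

theorem t_CFG : CFG := by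
  classical
  intro D a b ω
  unfold Cfg
  rw [Finset.mem_filter, Finset.mem_powerset]
  constructor
  · intro h
    exact h.2
  · intro h
    refine ⟨?_, h⟩
    intro e he
    obtain ⟨p, q, rfl, _, hp, hq⟩ := h.1 e he
    rw [Finset.mem_image]
    exact ⟨(p, q), Finset.mem_product.2 ⟨hp, hq⟩, rfl⟩

end Pool.Agent.K1H52.ON
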